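import Pool.Agent.P.MP_d4bf6a_co.BtC

namespace Pool.Agent.Results.MP_d4bf6a_co.BeyondTuran

open Pool.Agent.P.MP_d4bf6a_co

/-- The exact value of `ex_eq` for all orders `n` with `a ^ 2 ≤ n ≤ a ^ 2 + a / 2`. -/
theorem result (a r : ℕ) (ha : 3 ≤ a) (hr : 2 * r ≤ a) :
    exEq (a ^ 2 + r) a = a.choose 2 * a ^ 2 + (a - 2) * a * r + r ^ 2 :=
  beyond a r ha hr

end Pool.Agent.Results.MP_d4bf6a_co.BeyondTuran
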