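import Pool.Agent.P.MP_d4bf6a_co.Basic

namespace Pool.Agent.Results.MP_d4bf6a_co.RamseyLimit

open Filter Topology Pool.Agent.P.MP_d4bf6a_co

/-- For every fixed `a ≥ 1`, `ex_eq(n; a) / n` converges to a constant `c` (which also bounds
every ratio from above), and `(R(a+1,a+1) - 2) / 4 ≤ c ≤ (R(a,a+1) - 1) / 2`. -/
theorem result (a : ℕ) (ha : 1 ≤ a) :
    ∃ c : ℝ, Tendsto (fun n : ℕ => (exEq n a : ℝ) / n) atTop (𝓝 c) ∧
      (∀ n : ℕ, (exEq n a : ℝ) ≤ c * n) ∧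
      ((ramseyNum (a + 1) (a + 1) : ℝ) - 2) / 4 ≤ c ∧
      c ≤ ((ramseyNum a (a + 1) : ℝ) - 1) / 2 :=
  main_limit a ha

end Pool.Agent.Results.MP_d4bf6a_co.RamseyLimit
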