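import Pool.Agent.P.MP_d4bf6a_co.Three

namespace Pool.Agent.Results.MP_d4bf6a_co.Three

open Pool.Agent.P.MP_d4bf6a_co

/-- The case `a = 3`: `4n - 12 ≤ ex_eq(n; 3) ≤ 4n`, with equality on the right when `17 ∣ n`. -/
theorem result (n : ℕ) (hn : 3 ≤ n) :
    4 * n ≤ exEq n 3 + 12 ∧ exEq n 3 ≤ 4 * n ∧ (17 ∣ n → exEq n 3 = 4 * n) :=
  main_three n hn

end Pool.Agent.Results.MP_d4bf6a_co.Three
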